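import Pool.Agent.Helper86.SG.Defs

/-! Package CON of the board SG (MP_66bcf1_co): the construction. -/

set_option autoImplicit false

open Finset

namespace Pool.Agent.Helper76.SG

open SJ (supp IsV dot fib)

theorem con_mem_supp {n : ℕ} (v : Fin n → ℤ) (i : Fin n) : i ∈ supp v ↔ v i ≠ 0 := by
  simp [supp]

theorem con_core {n k d : ℕ} (u v c : Fin n → ℤ) (hu : IsV n k u) (hv : IsV n k v)
    (hc : ∀ i, c i = 1 ∨ c i = -1)
    (hdu : #((supp u).filter (fun i => u i ≠ c i)) ≤ d + 1)
    (hdv : #((supp v).filter (fun i => v i ≠ c i)) ≤ d + 1)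
    (h : dot u v ≤ -(2 * (d : ℤ) + 2)) :
    dot u v = -(2 * (d : ℤ) + 2) ∧
      (supp u).filter (fun i => u i ≠ c i) ⊆ supp v ∧
      (supp v).filter (fun i => v i ≠ c i) ⊆ supp u ∧
      Disjoint ((supp u).filter (fun i => u i ≠ c i)) ((supp v).filter (fun i => v i ≠ c i)) ∧
      #((supp u).filter (fun i => u i ≠ c i)) = d + 1 ∧
      #((supp v).filter (fun i => v i ≠ c i)) = d + 1 := by
  classical
  set Du := (supp u).filter (fun i => u i ≠ c i) with hDu
  set Dv := (supp v).filter (fun i => v i ≠ c i) with hDv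
  set X := supp u ∩ supp v with hX
  set Df := X.filter (fun i => u i ≠ v i) with hDf
  have h1 : dot u v = ∑ i ∈ X, u i * v i := by
    unfold dot
    symm
    apply Finset.sum_subset (subset_univ _)
    intro i _ hi
    rw [hX, mem_inter, con_mem_supp, con_mem_supp] at hi
    by_cases h0 : u i = 0
    · rw [h0, zero_mul]
    · by_cases h0' : v i = 0
      · rw [h0', mul_zero]
      · exact absurd ⟨h0, h0'⟩ hi
  have h2 : ∑ i ∈ X, u i * v i = ∑ i ∈ X, (1 - 2 * (if u i ≠ v i then (1 : ℤ) else 0)) := by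
    refine sum_congr rfl fun i hi => ?_
    rw [hX, mem_inter, con_mem_supp, con_mem_supp] at hi
    rcases hu.1 i with a | a | a <;> rcases hv.1 i with b | b | b <;> simp_all
  have h3 : ∑ i ∈ X, (1 - 2 * (if u i ≠ v i then (1 : ℤ) else 0)) = (#X : ℤ) - 2 * #Df := by
    rw [sum_sub_distrib, ← mul_sum, sum_boole]
    simp [hDf]
  have h4 : #Df ≤ #X := card_filter_le _ _
  have h5 : Df ⊆ Du ∪ Dv := by
    intro i hi
    rw [hDf, mem_filter, hX, mem_inter] at hi
    rw [mem_union, hDu, hDv, mem_filter, mem_filter]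
    by_cases hui : u i = c i
    · right
      exact ⟨hi.1.2, fun hvi => hi.2 (by rw [hui, hvi])⟩
    · left
      exact ⟨hi.1.1, hui⟩
  have h6 : #Df ≤ #(Du ∪ Dv) := card_le_card h5
  have h7 : #(Du ∪ Dv) ≤ #Du + #Dv := card_union_le _ _
  rw [h2, h3] at h1
  have h8 : #Df = 2 * d + 2 := by omega
  have h9 : #X = 2 * d + 2 := by omega
  have h10 : Df = Du ∪ Dv := eq_of_subset_of_card_le h5 (by omega)
  have h11 : Du ⊆ X := fun i hi => (filter_subset _ _) (h10 ▸ mem_union_left _ hi : i ∈ Df)
  have h12 : Dv ⊆ X := fun i hi => (filter_subset _ _) (h10 ▸ mem_union_right _ hi : i ∈ Df)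
  refine ⟨by omega, fun i hi => (mem_inter.1 (h11 hi)).2, fun i hi => (mem_inter.1 (h12 hi)).1,
    ?_, by omega, by omega⟩
  rw [← card_union_eq_card_add_card]
  omega

theorem con (hC : SG.CNTStm) : SG.CONStm := by
  classical
  intro n k d hk T c hc F₁ hJ hF₁
  obtain ⟨P, hPdef⟩ : ∃ P : Finset (Fin n) → Finset (Fin n), ∀ S,
      P S = if h : (S ∩ T).Nonempty then {(S ∩ T).min' h} else ∅ := ⟨_, fun _ => rfl⟩
  have hPn : ∀ S, ∀ h : (S ∩ T).Nonempty, P S = {(S ∩ T).min' h} := fun S h => by
    rw [hPdef, dif_pos h]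
  have hPe : ∀ S, Disjoint S T → P S = ∅ := fun S h => by
    rw [hPdef, dif_neg]
    rw [Finset.not_nonempty_iff_eq_empty]
    exact disjoint_iff_inter_eq_empty.1 h
  have hP : ∀ S, P S ⊆ S := by
    intro S
    by_cases h : (S ∩ T).Nonempty
    · rw [hPn S h, singleton_subset_iff]
      exact (mem_inter.1 (min'_mem _ h)).1
    · rw [hPdef, dif_neg h]
      exact empty_subset _
  choose G hG hGc using fun S => hC n d S (P S) c hc (hP S)
  have hpart : ∀ v ∈ (powersetCard k (univ : Finset (Fin n))).biUnion G, IsV n k v ∧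
      #((supp v \ P (supp v)).filter (fun i => v i ≠ c i)) ≤ d := by
    intro v hv
    obtain ⟨S, hS, hvS⟩ := mem_biUnion.1 hv
    obtain ⟨h1, h2, h3⟩ := (hG S v).1 hvS
    rw [(mem_powersetCard.1 hS).2] at h1
    exact ⟨h1, by rw [h2]; exact h3⟩
  have hPc : ∀ S, #(P S) ≤ 1 := by
    intro S
    rw [hPdef]
    split_ifs <;> simp
  have hdis : ∀ v ∈ F₁ ∪ (powersetCard k (univ : Finset (Fin n))).biUnion G, IsV n k v ∧
      #((supp v).filter (fun i => v i ≠ c i)) ≤ d + 1 := by
    intro v hv
    rcases mem_union.1 hv with hv | hv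
    · exact ⟨hJ.1 v hv, (hF₁ v hv).2.le⟩
    · obtain ⟨h1, h2⟩ := hpart v hv
      refine ⟨h1, ?_⟩
      have h3 : (supp v).filter (fun i => v i ≠ c i) ⊆
          (supp v \ P (supp v)).filter (fun i => v i ≠ c i) ∪ P (supp v) := by
        intro i hi
        rw [mem_filter] at hi
        by_cases hiP : i ∈ P (supp v)
        · exact mem_union_right _ hiP
        · exact mem_union_left _ (mem_filter.2 ⟨mem_sdiff.2 ⟨hi.1, hiP⟩, hi.2⟩)
      calc _ ≤ _ := card_le_card h3
        _ ≤ _ := card_union_le _ _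
        _ ≤ d + 1 := Nat.add_le_add h2 (hPc _)
  -- a member of the second part with `d + 1` disagreements
  have hfull : ∀ v ∈ (powersetCard k (univ : Finset (Fin n))).biUnion G,
      #((supp v).filter (fun i => v i ≠ c i)) = d + 1 →
      ∃ h : (supp v ∩ T).Nonempty, (supp v ∩ T).min' h ∈ (supp v).filter (fun i => v i ≠ c i) := by
    intro v hv hcard
    obtain ⟨h1, h2⟩ := hpart v hv
    by_cases hne : (supp v ∩ T).Nonempty
    · refine ⟨hne, ?_⟩
      by_contra hnot
      have h3 : (supp v).filter (fun i => v i ≠ c i) ⊆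
          (supp v \ P (supp v)).filter (fun i => v i ≠ c i) := by
        intro i hi
        have hi' := mem_filter.1 hi
        refine mem_filter.2 ⟨mem_sdiff.2 ⟨hi'.1, fun hiP => ?_⟩, hi'.2⟩
        rw [hPn _ hne, mem_singleton] at hiP
        exact hnot (hiP ▸ hi)
      have := card_le_card h3
      omega
    · have h3 : P (supp v) = ∅ := by rw [hPdef, dif_neg hne]
      rw [h3, sdiff_empty] at h2
      omega
  refine ⟨F₁ ∪ (powersetCard k (univ : Finset (Fin n))).biUnion G,
    ⟨fun v hv => (hdis v hv).1, ?_⟩, ?_⟩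
  · intro u hu v hv huv hle
    obtain ⟨hd, hsu, hsv, hdj, hcu, hcv⟩ := con_core u v c (hdis u hu).1 (hdis v hv).1 hc
      (hdis u hu).2 (hdis v hv).2 hle
    rcases mem_union.1 hu with hu1 | hu2
    · rcases mem_union.1 hv with hv1 | hv2
      · exact hJ.2 u hu1 v hv1 huv hd
      · obtain ⟨hne, hm⟩ := hfull v hv2 hcv
        have h1 := hsv hm
        have h2 := (mem_inter.1 (min'_mem _ hne)).2
        exact (Finset.disjoint_left.1 (hF₁ u hu1).1) h1 h2
    · obtain ⟨hne, hm⟩ := hfull u hu2 hcu
      have h1 := hsu hm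
      have h2 := (mem_inter.1 (min'_mem _ hne)).2
      rcases mem_union.1 hv with hv1 | hv2
      · exact (Finset.disjoint_left.1 (hF₁ v hv1).1) h1 h2
      · obtain ⟨hne', hm'⟩ := hfull v hv2 hcv
        have h1' := hsv hm'
        have h2' := (mem_inter.1 (min'_mem _ hne')).2
        have e1 : (supp v ∩ T).min' hne' ≤ (supp u ∩ T).min' hne :=
          min'_le _ _ (mem_inter.2 ⟨h1, h2⟩)
        have e2 : (supp u ∩ T).min' hne ≤ (supp v ∩ T).min' hne' :=
          min'_le _ _ (mem_inter.2 ⟨h1', h2'⟩)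
        have e3 := le_antisymm e2 e1
        exact (Finset.disjoint_left.1 hdj) hm (by rw [e3]; exact hm')
  · have hdj : Disjoint F₁ ((powersetCard k (univ : Finset (Fin n))).biUnion G) := by
      rw [Finset.disjoint_left]
      intro v hv hv'
      obtain ⟨hne, -⟩ := hfull v hv' (hF₁ v hv).2
      obtain ⟨x, hx⟩ := hne
      exact (Finset.disjoint_left.1 (hF₁ v hv).1) (mem_inter.1 hx).1 (mem_inter.1 hx).2
    rw [card_union_of_disjoint hdj, card_biUnion]
    · have hsum : ∑ S ∈ powersetCard k (univ : Finset (Fin n)), #(G S) =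
          2 * SG.BB (k - 1) d * #((powersetCard k (univ : Finset (Fin n))).filter
            (fun S => ¬ Disjoint S T)) +
          SG.BB k d * #((powersetCard k (univ : Finset (Fin n))).filter
            (fun S => Disjoint S T)) := by
        rw [← sum_filter_add_sum_filter_not (powersetCard k (univ : Finset (Fin n)))
          (fun S => ¬ Disjoint S T)]
        congr 1
        · rw [sum_congr rfl (g := fun _ => 2 * SG.BB (k - 1) d), sum_const, smul_eq_mul, mul_comm]
          intro S hS
          rw [mem_filter, mem_powersetCard] at hS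
          have hne : (S ∩ T).Nonempty := by
            rw [Finset.nonempty_iff_ne_empty]
            exact fun h => hS.2 (disjoint_iff_inter_eq_empty.2 h)
          have h1 : #(P S) = 1 := by rw [hPn S hne, card_singleton]
          have h2 : #(S \ P S) = k - 1 := by
            rw [card_sdiff_of_subset (hP S), h1, hS.1.2]
          rw [hGc, h1, h2, pow_one]
        · have : (powersetCard k (univ : Finset (Fin n))).filter (fun S => ¬ ¬ Disjoint S T) =
            (powersetCard k (univ : Finset (Fin n))).filter (fun S => Disjoint S T) := by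
            congr 1
            funext S
            exact propext not_not
          rw [this, sum_congr rfl (g := fun _ => SG.BB k d), sum_const, smul_eq_mul, mul_comm]
          intro S hS
          rw [mem_filter, mem_powersetCard] at hS
          rw [hGc, hPe S hS.2, card_empty, pow_zero, one_mul, sdiff_empty, hS.1.2]
      rw [hsum]
      omega
    · intro S _ S' _ hSS'
      rw [Function.onFun, Finset.disjoint_left]
      intro v hv hv'
      exact hSS' (((hG S v).1 hv).2.1.symm.trans ((hG S' v).1 hv').2.1)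

end Pool.Agent.Helper76.SG
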